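import Pool.Agent.TH703.HU.Stm

/-!
# Project HU, piece C3: lower bounds for the weighted variation of an indicator on the line
-/

set_option autoImplicit false

open MeasureTheory Set Metric Filter Topology
open scoped ENNReal Real

noncomputable section

namespace Pool.Agent.TH663.HU

open Pool.Agent.TH304.MI Pool.Agent.TH703.HU

/-- The indicator function of `S` on the line. -/
def fi (S : Set ℝ) : ℝ → ℝ := S.indicator (fun _ => (1 : ℝ))

/-- `x` is a right Lebesgue point of the indicator along the steps `1 / (n + 1)`. -/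
def Good (S : Set ℝ) (x : ℝ) : Prop :=
  Tendsto (fun n : ℕ => ((n : ℝ) + 1) * (∫ t in x..(x + 1 / ((n : ℝ) + 1)), fi S t)) atTop
    (𝓝 (fi S x))

theorem fi_locInt (S : Set ℝ) (hS : MeasurableSet S) : LocallyIntegrable (fi S) volume :=
  (locallyIntegrable_const (1 : ℝ)).indicator hS

theorem fi_meas (S : Set ℝ) (hS : MeasurableSet S) : Measurable (fi S) :=
  measurable_const.indicator hS

theorem fi_int (S : Set ℝ) (hS : MeasurableSet S) (a b : ℝ) :
    IntervalIntegrable (fi S) volume a b :=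
  intervalIntegrable_iff.mpr <|
    (LocallyIntegrable.integrableOn_isCompact (fi_locInt S hS) isCompact_uIcc).mono_set
      uIoc_subset_uIcc

theorem ae_good (S : Set ℝ) (hS : MeasurableSet S) : ∀ᵐ x ∂volume, Good S x := by
  filter_upwards [LocallyIntegrable.ae_hasDerivAt_integral (fi_locInt S hS)] with x hx
  have h := hasDerivAt_iff_tendsto_slope_zero.1 (hx x)
  have hseq : Tendsto (fun n : ℕ => 1 / ((n : ℝ) + 1)) atTop (𝓝[≠] 0) := by
    refine tendsto_nhdsWithin_iff.2 ⟨tendsto_one_div_add_atTop_nhds_zero_nat, ?_⟩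
    filter_upwards with n
    have : (0 : ℝ) < 1 / ((n : ℝ) + 1) := by positivity
    exact this.ne'
  have h2 := h.comp hseq
  refine h2.congr (fun n => ?_)
  simp [Function.comp]

theorem key (u : ℝ → ℝ) (S : Set ℝ) (hS : MeasurableSet S) (c0 c1 κ h : ℝ) (hc : c0 ≤ c1)
    (hκ : 0 ≤ κ) (hle : ∀ t ∈ Ioc c0 c1, κ ≤ u t) :
    ENNReal.ofReal (κ * |(∫ t in c1..(c1 + h), fi S t) - ∫ t in c0..(c0 + h), fi S t|) ≤
      ∫⁻ t in Ioc c0 c1, ENNReal.ofReal (u t * |fi S (t + h) - fi S t|) := by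
  have hI : IntervalIntegrable (fun t => fi S (t + h)) volume c0 c1 :=
    (IntervalIntegrable.comp_add_right_iff).2 (fi_int S hS (c0 + h) (c1 + h))
  have e1 : (∫ t in c0..c1, (fi S (t + h) - fi S t)) =
      (∫ t in c1..(c1 + h), fi S t) - ∫ t in c0..(c0 + h), fi S t := by
    rw [intervalIntegral.integral_sub hI (fi_int S hS _ _),
      intervalIntegral.integral_comp_add_right (fi S) h]
    have a1 := intervalIntegral.integral_add_adjacent_intervals (fi_int S hS c0 c1)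
      (fi_int S hS c1 (c1 + h))
    have a2 := intervalIntegral.integral_add_adjacent_intervals (fi_int S hS c0 (c0 + h))
      (fi_int S hS (c0 + h) (c1 + h))
    linarith
  rw [← e1, ENNReal.ofReal_mul hκ, intervalIntegral.integral_of_le hc]
  have e2 : ENNReal.ofReal |∫ t in Ioc c0 c1, (fi S (t + h) - fi S t)| ≤
      ∫⁻ t in Ioc c0 c1, ENNReal.ofReal |fi S (t + h) - fi S t| := by
    have := enorm_integral_le_lintegral_enorm (μ := volume.restrict (Ioc c0 c1))
      (fun t => fi S (t + h) - fi S t)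
    simpa only [← ofReal_norm, Real.norm_eq_abs] using this
  calc ENNReal.ofReal κ * ENNReal.ofReal |∫ t in Ioc c0 c1, (fi S (t + h) - fi S t)|
      ≤ ENNReal.ofReal κ * ∫⁻ t in Ioc c0 c1, ENNReal.ofReal |fi S (t + h) - fi S t| := by
        gcongr
    _ = ∫⁻ t in Ioc c0 c1, ENNReal.ofReal κ * ENNReal.ofReal |fi S (t + h) - fi S t| := by
        rw [lintegral_const_mul]
        have m1 := fi_meas S hS
        have m2 : Measurable (fun t => fi S (t + h)) := m1.comp (measurable_id.add_const h)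
        exact ENNReal.measurable_ofReal.comp ((m2.sub m1).abs)
    _ ≤ ∫⁻ t in Ioc c0 c1, ENNReal.ofReal (u t * |fi S (t + h) - fi S t|) := by
        refine setLIntegral_mono' measurableSet_Ioc (fun t ht => ?_)
        rw [← ENNReal.ofReal_mul hκ]
        exact ENNReal.ofReal_le_ofReal
          (mul_le_mul_of_nonneg_right (hle t ht) (abs_nonneg _))

theorem key2 (u : ℝ → ℝ) (S : Set ℝ) (hS : MeasurableSet S) (c0 c1 c2 c3 κ κ' : ℝ) (h01 : c0 ≤ c1)
    (h12 : c1 ≤ c2) (h23 : c2 ≤ c3) (hκ : 0 ≤ κ) (hκ' : 0 ≤ κ')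
    (hle : ∀ t ∈ Ioc c0 c1, κ ≤ u t) (hle' : ∀ t ∈ Ioc c2 c3, κ' ≤ u t)
    (g0 : Good S c0) (g1 : Good S c1) (g2 : Good S c2) (g3 : Good S c3) :
    ENNReal.ofReal (κ * |fi S c1 - fi S c0|) + ENNReal.ofReal (κ' * |fi S c3 - fi S c2|) ≤
      ev u S := by
  have T : ∀ (x y k : ℝ), 0 ≤ k → Good S x → Good S y →
      Tendsto (fun n : ℕ => ((n : ℝ≥0∞) + 1) * ENNReal.ofReal (k *
        |(∫ t in y..(y + 1 / ((n : ℝ) + 1)), fi S t) -
          ∫ t in x..(x + 1 / ((n : ℝ) + 1)), fi S t|)) atTop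
        (𝓝 (ENNReal.ofReal (k * |fi S y - fi S x|))) := by
    intro x y k hk gx gy
    have t1 := (((gy.sub gx).abs).const_mul k)
    have t2 := (ENNReal.continuous_ofReal.tendsto _).comp t1
    refine t2.congr (fun n => ?_)
    have hn : (0 : ℝ) ≤ (n : ℝ) + 1 := by positivity
    have e : ((n : ℝ≥0∞) + 1) = ENNReal.ofReal ((n : ℝ) + 1) := by
      rw [ENNReal.ofReal_add (by positivity) zero_le_one]
      simp
    simp only [Function.comp]
    rw [e, ← ENNReal.ofReal_mul hn, ← mul_sub, abs_mul, abs_of_nonneg hn]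
    congr 1
    ring
  have t := (T c0 c1 κ hκ g0 g1).add (T c2 c3 κ' hκ' g2 g3)
  rw [← t.liminf_eq]
  unfold ev
  refine liminf_le_liminf (Eventually.of_forall (fun n => ?_))
  rw [← mul_add]
  gcongr
  have d : Disjoint (Ioc c0 c1) (Ioc c2 c3) := by
    rw [Set.disjoint_left]
    intro t h1 h2
    exact absurd (lt_of_lt_of_le h2.1 (h1.2.trans h12)) (lt_irrefl _)
  calc _ ≤ (∫⁻ t in Ioc c0 c1, ENNReal.ofReal (u t * |fi S (t + 1 / ((n : ℝ) + 1)) - fi S t|)) +
        ∫⁻ t in Ioc c2 c3, ENNReal.ofReal (u t * |fi S (t + 1 / ((n : ℝ) + 1)) - fi S t|) :=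
        add_le_add (key u S hS c0 c1 κ _ h01 hκ hle) (key u S hS c2 c3 κ' _ h23 hκ' hle')
    _ = ∫⁻ t in Ioc c0 c1 ∪ Ioc c2 c3,
          ENNReal.ofReal (u t * |fi S (t + 1 / ((n : ℝ) + 1)) - fi S t|) :=
        (lintegral_union measurableSet_Ioc d).symm
    _ ≤ ∫⁻ t : ℝ, ENNReal.ofReal (u t * |fi S (t + 1 / ((n : ℝ) + 1)) - fi S t|) :=
        setLIntegral_le_lintegral _ _

theorem exists_good (S A : Set ℝ) (hS : MeasurableSet S) (hA : 0 < volume A) :
    ∃ x ∈ A, Good S x := by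
  by_contra hcon
  push Not at hcon
  have h0 : volume {x | ¬ Good S x} = 0 := ae_iff.1 (ae_good S hS)
  have : volume A = 0 := measure_mono_null (fun x hx => hcon x hx) h0
  exact hA.ne' this

theorem fi_mem {S : Set ℝ} {x : ℝ} (h : x ∈ S) : fi S x = 1 := by simp [fi, h]
theorem fi_nmem {S : Set ℝ} {x : ℝ} (h : x ∉ S) : fi S x = 0 := by simp [fi, h]

theorem exists_pair (S : Set ℝ) (hS : MeasurableSet S) (a b : ℝ)
    (h1 : 0 < volume (S ∩ Ioo a b)) (h2 : 0 < volume (Ioo a b \ S)) :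
    ∃ x y : ℝ, a < x ∧ x ≤ y ∧ y < b ∧ Good S x ∧ Good S y ∧ |fi S y - fi S x| = 1 := by
  obtain ⟨x, hx, gx⟩ := exists_good S _ hS h1
  obtain ⟨y, hy, gy⟩ := exists_good S _ hS h2
  rcases le_total x y with h | h
  · exact ⟨x, y, hx.2.1, h, hy.1.2, gx, gy, by rw [fi_mem hx.1, fi_nmem hy.2]; norm_num⟩
  · exact ⟨y, x, hy.1.1, h, hx.2.2, gy, gx, by rw [fi_mem hx.1, fi_nmem hy.2]; norm_num⟩

/-- **C3.** -/
theorem c3 : S_C3 := by
  intro u S _ _ hS
  refine ⟨?_, ?_, ?_⟩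
  · intro a b κ _ hκ hle h1 h2
    obtain ⟨x, y, hax, hxy, hyb, gx, gy, e⟩ := exists_pair S hS a b h1 h2
    have := key2 u S hS x y y y κ 0 hxy le_rfl le_rfl hκ le_rfl
      (fun t ht => hle t ⟨hax.trans ht.1, ht.2.trans_lt hyb⟩)
      (fun t ht => absurd (ht.1.trans_le ht.2) (lt_irrefl _)) gx gy gy gy
    simpa [e] using this
  · intro a b a' b' κ κ' _ hba _ hκ hκ' hle hle' h1 h2 h3 h4
    obtain ⟨x, y, hax, hxy, hyb, gx, gy, e⟩ := exists_pair S hS a b h1 h2
    obtain ⟨z, w, haz, hzw, hwb, gz, gw, e'⟩ := exists_pair S hS a' b' h3 h4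
    have := key2 u S hS x y z w κ κ' hxy ((hyb.le.trans hba).trans haz.le) hzw hκ hκ'
      (fun t ht => hle t ⟨hax.trans ht.1, ht.2.trans_lt hyb⟩)
      (fun t ht => hle' t ⟨haz.trans ht.1, ht.2.trans_lt hwb⟩) gx gy gz gw
    rw [e, e', mul_one, mul_one] at this
    rwa [ENNReal.ofReal_add hκ hκ']
  · intro a b c d κ hab hbc hcd hκ hle h1 h2 h3
    obtain ⟨x, hx, gx⟩ := exists_good S _ hS h1
    obtain ⟨y, hy, gy⟩ := exists_good S _ hS h2
    obtain ⟨z, hz, gz⟩ := exists_good S _ hS h3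
    have hxy : x ≤ y := (hx.1.2.trans hy.2.1).le
    have hyz : y ≤ z := (hy.2.2.trans hz.1.1).le
    have := key2 u S hS x y y z κ κ hxy le_rfl hyz hκ hκ
      (fun t ht => hle t ⟨hx.1.1.trans ht.1, (ht.2.trans_lt hy.2.2).trans hcd⟩)
      (fun t ht => hle t ⟨(hab.trans hy.2.1).trans ht.1, ht.2.trans_lt hz.1.2⟩) gx gy gy gz
    rw [fi_nmem hx.2, fi_mem hy.1, fi_nmem hz.2] at this
    rw [two_mul, ENNReal.ofReal_add hκ hκ]
    simpa using this

end Pool.Agent.TH663.HU
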